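import Pool.Agent.H923R2.FP.Stubs

/-! Task FORM (helper955): the derivative of `P`. -/

set_option autoImplicit false
set_option linter.unusedSectionVars false

namespace Pool.Agent.H923R2.FP.T_FORM

open Pool.Agent.H923R2.FP

noncomputable section

section units

variable {A : Type} [Ring A] [Algebra ℂ A]

/-- dual number -/
def dn (x y : A) : TrivSqZeroExt A A := (x, y)

theorem dn_mul (x y x' y' : A) : dn x y * dn x' y' = dn (x * x') (x * y' + y * x') := by
  refine TrivSqZeroExt.ext ?_ ?_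
  · rfl
  · rw [TrivSqZeroExt.snd_mul]
    rfl

theorem dn_one : dn (1 : A) 0 = 1 := rfl

/-- unit of the dual numbers given by an invertible element and the inner derivation of `h`
multiplied by the scalar `c` -/
def un (x x' h : A) (h1 : x * x' = 1) (h2 : x' * x = 1) (c : ℂ) : (TrivSqZeroExt A A)ˣ where
  val := dn x (c • (x * h - h * x))
  inv := dn x' (c • (x' * h - h * x'))
  val_inv := by
    rw [dn_mul, h1, ← dn_one]
    congr 1
    rw [mul_smul_comm, smul_mul_assoc, ← smul_add, mul_sub, sub_mul, ← mul_assoc, h1, mul_assoc h,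
      h1, ← mul_assoc]
    simp
  inv_val := by
    rw [dn_mul, h2, ← dn_one]
    congr 1
    rw [mul_smul_comm, smul_mul_assoc, ← smul_add, mul_sub, sub_mul, ← mul_assoc, h2, mul_assoc h,
      h2, ← mul_assoc]
    simp

end units

section main

variable {A Q R : Type} [CStarAlgebra A] [Ring Q] [StarRing Q] [Algebra ℂ Q]
  [Ring R] [StarRing R] [Algebra ℂ R] (π : Q →⋆ₐ[ℂ] A) (ρ : R →⋆ₐ[ℂ] A) (s : A)
  (u : unitary Q) (a : unitary R) (h P : A)

/-- the representation on the dual numbers -/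
def FF : F2 →* (TrivSqZeroExt A A)ˣ :=
  FreeGroup.lift fun b => if b then
    un ((um π u : unitary A) : A) (star ((um π u : unitary A) : A)) h
      (Unitary.mul_star_self_of_mem (um π u).2) (Unitary.star_mul_self_of_mem (um π u).2) Complex.I
    else un ((um ρ a : unitary A) : A) (star ((um ρ a : unitary A) : A)) h
      (Unitary.mul_star_self_of_mem (um ρ a).2) (Unitary.star_mul_self_of_mem (um ρ a).2) 0

theorem key (L : List (Bool × Bool)) :
    dn (ev (vl π ρ s) (L.map fun p =>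
      if p.1 then (if p.2 then Lt.q (u : Q) else Lt.q (star (u : Q)))
      else (if p.2 then Lt.r (a : R) else Lt.r (star (a : R)))))
      (der (vl π ρ s) (dl π h P) (L.map fun p =>
      if p.1 then (if p.2 then Lt.q (u : Q) else Lt.q (star (u : Q)))
      else (if p.2 then Lt.r (a : R) else Lt.r (star (a : R))))) =
    (FF π ρ u a h (FreeGroup.mk L) : TrivSqZeroExt A A) := by
  induction L with
  | nil =>
    simp only [List.map_nil, ev_nil, der_nil, ← FreeGroup.one_eq_mk, map_one, Units.val_one]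
    exact dn_one
  | cons p L ih =>
    have h1 : FreeGroup.mk (p :: L) = FreeGroup.mk [p] * FreeGroup.mk L := by
      rw [FreeGroup.mul_mk]; rfl
    rw [List.map_cons, ev_cons, der_cons, h1, map_mul, Units.val_mul, ← ih, add_comm, ← dn_mul]
    congr 1
    obtain ⟨b, c⟩ := p
    cases b <;> cases c
    · have e : (FreeGroup.mk [(false, false)] : F2) = (FreeGroup.of false)⁻¹ := rfl
      rw [e, map_inv]
      simp only [FF, FreeGroup.lift_apply_of]
      show _ = dn _ _
      simp [um, map_star, dl]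
    · have e : (FreeGroup.mk [(false, true)] : F2) = FreeGroup.of false := rfl
      rw [e]
      simp only [FF, FreeGroup.lift_apply_of]
      show _ = dn _ _
      simp [um, dl]
    · have e : (FreeGroup.mk [(true, false)] : F2) = (FreeGroup.of true)⁻¹ := rfl
      rw [e, map_inv]
      simp only [FF, FreeGroup.lift_apply_of]
      show _ = dn _ _
      simp [um, map_star, dl]
    · have e : (FreeGroup.mk [(true, true)] : F2) = FreeGroup.of true := rfl
      rw [e]
      simp only [FF, FreeGroup.lift_apply_of]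
      show _ = dn _ _
      simp [um, dl]

/-- the derivative of a group element -/
def Dg (g : F2) : A := der (vl π ρ s) (dl π h P) (gw u a g)

theorem FF_eq (g : F2) :
    (FF π ρ u a h g : TrivSqZeroExt A A) = dn (GG π ρ u a g : A) (Dg π ρ s u a h P g) := by
  have h1 := key π ρ s u a h P g.toWord
  rw [FreeGroup.mk_toWord] at h1
  rw [← h1, ← ev_gw π ρ s u a g]
  rfl

theorem Dg_mul (g g' : F2) : Dg π ρ s u a h P (g * g') =
    Dg π ρ s u a h P g * (GG π ρ u a g' : A) + (GG π ρ u a g : A) * Dg π ρ s u a h P g' := by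
  have h1 := FF_eq π ρ s u a h P (g * g')
  rw [map_mul, Units.val_mul, FF_eq π ρ s u a h P g, FF_eq π ρ s u a h P g', dn_mul] at h1
  have h2 := congrArg TrivSqZeroExt.snd h1
  have h3 : (GG π ρ u a g : A) * Dg π ρ s u a h P g' + Dg π ρ s u a h P g * (GG π ρ u a g' : A) =
      Dg π ρ s u a h P (g * g') := h2
  rw [← h3, add_comm]

theorem Dg_one : Dg π ρ s u a h P 1 = 0 := by
  unfold Dg gw
  simp

theorem GG_inv_mul (g : F2) : (GG π ρ u a g⁻¹ : A) * (GG π ρ u a g : A) = 1 := by
  rw [← Submonoid.coe_mul, ← map_mul, inv_mul_cancel, map_one]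
  rfl

theorem GG_mul_inv (g : F2) : (GG π ρ u a g : A) * (GG π ρ u a g⁻¹ : A) = 1 := by
  rw [← Submonoid.coe_mul, ← map_mul, mul_inv_cancel, map_one]
  rfl

theorem Dg_u : Dg π ρ s u a h P (FreeGroup.of true) =
    Complex.I • ((GG π ρ u a (FreeGroup.of true) : A) * h -
      h * (GG π ρ u a (FreeGroup.of true) : A)) := by
  have h1 := FF_eq π ρ s u a h P (FreeGroup.of true)
  have h2 := congrArg TrivSqZeroExt.snd h1
  have h3 : TrivSqZeroExt.snd ((FF π ρ u a h (FreeGroup.of true) : (TrivSqZeroExt A A)ˣ) :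
      TrivSqZeroExt A A) = Complex.I • ((um π u : A) * h - h * (um π u : A)) := by
    simp only [FF, FreeGroup.lift_apply_of]
    rfl
  rw [h3] at h2
  have h4 : GG π ρ u a (FreeGroup.of true) = um π u := by
    simp [GG]
  rw [h4]
  exact h2.symm

theorem Dg_a : Dg π ρ s u a h P (FreeGroup.of false) = 0 := by
  have h1 := FF_eq π ρ s u a h P (FreeGroup.of false)
  have h2 := congrArg TrivSqZeroExt.snd h1
  have h3 : TrivSqZeroExt.snd ((FF π ρ u a h (FreeGroup.of false) : (TrivSqZeroExt A A)ˣ) :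
      TrivSqZeroExt A A) = (0 : ℂ) • ((um ρ a : A) * h - h * (um ρ a : A)) := by
    simp only [FF, FreeGroup.lift_apply_of]
    rfl
  rw [h3, zero_smul] at h2
  exact h2.symm

theorem Dg_u_pow (n : ℕ) : Dg π ρ s u a h P (FreeGroup.of true ^ n) =
    Complex.I • ((GG π ρ u a (FreeGroup.of true ^ n) : A) * h -
      h * (GG π ρ u a (FreeGroup.of true ^ n) : A)) := by
  induction n with
  | zero => simp [Dg_one]
  | succ n ih =>
    rw [pow_succ, Dg_mul, ih, Dg_u, map_mul, Submonoid.coe_mul, smul_mul_assoc, mul_smul_comm,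
      ← smul_add]
    congr 1
    noncomm_ring

theorem Dg_a_pow (n : ℕ) : Dg π ρ s u a h P (FreeGroup.of false ^ n) = 0 := by
  induction n with
  | zero => simp [Dg_one]
  | succ n ih =>
    rw [pow_succ, Dg_mul, ih, Dg_a, zero_mul, mul_zero, add_zero]

/-- the logarithmic derivative -/
def Eg (g : F2) : A := Dg π ρ s u a h P g * (GG π ρ u a g⁻¹ : A)

theorem Eg_mul (g g' : F2) : Eg π ρ s u a h P (g * g') = Eg π ρ s u a h P g +
    (GG π ρ u a g : A) * Eg π ρ s u a h P g' * (GG π ρ u a g⁻¹ : A) := by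
  unfold Eg
  rw [Dg_mul, mul_inv_rev, map_mul, Submonoid.coe_mul, add_mul]
  congr 1
  · rw [mul_assoc, ← mul_assoc (GG π ρ u a g' : A), GG_mul_inv, one_mul]
  · simp only [mul_assoc]

theorem Dg_eq (g : F2) : Dg π ρ s u a h P g = Eg π ρ s u a h P g * (GG π ρ u a g : A) := by
  unfold Eg
  rw [mul_assoc, GG_inv_mul, mul_one]

theorem Dg_inv (g : F2) : Dg π ρ s u a h P g⁻¹ =
    -((GG π ρ u a g⁻¹ : A) * Eg π ρ s u a h P g) := by
  have h1 := Dg_mul π ρ s u a h P g g⁻¹
  rw [mul_inv_cancel, Dg_one] at h1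
  have h2 : (GG π ρ u a g : A) * Dg π ρ s u a h P g⁻¹ = -Eg π ρ s u a h P g := by
    unfold Eg
    exact (eq_neg_of_add_eq_zero_right h1.symm)
  calc Dg π ρ s u a h P g⁻¹ = ((GG π ρ u a g⁻¹ : A) * (GG π ρ u a g : A)) *
        Dg π ρ s u a h P g⁻¹ := by rw [GG_inv_mul, one_mul]
    _ = _ := by rw [mul_assoc, h2, mul_neg]

theorem Eg_even (k : ℕ) : Eg π ρ s u a h P (yy (2 * k + 1)) = Eg π ρ s u a h P (yy (2 * k)) := by
  have e : yy (2 * k + 1) = yy (2 * k) * zz (2 * k) := rfl
  have e2 : zz (2 * k) = FreeGroup.of false ^ (2 * k / 2 + 1) := by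
    unfold zz
    have : (2 * k) % 2 = 0 := by omega
    rw [this]
    rfl
  rw [e, Eg_mul, e2]
  have : Eg π ρ s u a h P (FreeGroup.of false ^ (2 * k / 2 + 1)) = 0 := by
    unfold Eg
    rw [Dg_a_pow, zero_mul]
  rw [this, mul_zero, zero_mul, add_zero]

theorem Eg_odd (k : ℕ) : Eg π ρ s u a h P (yy (2 * k + 2)) = Eg π ρ s u a h P (yy (2 * k + 1)) +
    Complex.I • ((GG π ρ u a (yy (2 * k + 2)) : A) * h * (GG π ρ u a (yy (2 * k + 2))⁻¹ : A) -
      (GG π ρ u a (yy (2 * k + 1)) : A) * h * (GG π ρ u a (yy (2 * k + 1))⁻¹ : A)) := by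
  have e : yy (2 * k + 2) = yy (2 * k + 1) * zz (2 * k + 1) := rfl
  have e2 : zz (2 * k + 1) = FreeGroup.of true ^ ((2 * k + 1) / 2 + 1) := by
    unfold zz
    have : (2 * k + 1) % 2 = 1 := by omega
    rw [this]
    rfl
  rw [e, Eg_mul]
  congr 1
  set y := yy (2 * k + 1)
  set z := zz (2 * k + 1) with hz
  have h1 : Eg π ρ s u a h P z = Complex.I • ((GG π ρ u a z : A) * h * (GG π ρ u a z⁻¹ : A) - h) := by
    unfold Eg
    rw [e2, Dg_u_pow, smul_mul_assoc, sub_mul, mul_assoc h, GG_mul_inv, mul_one]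
  rw [h1, mul_inv_rev, map_mul, map_mul, Submonoid.coe_mul, Submonoid.coe_mul, mul_smul_comm,
    smul_mul_assoc, mul_sub, sub_mul]
  simp only [mul_assoc]

end main

theorem t_FORM (hAD : S_AD) : S_FORM := by
  intro A Q R _ _ _ _ _ _ _ π ρ s u a X L t κ M P
  obtain ⟨ad1, ad2, ad3, -, -⟩ := hAD A Q R π ρ s u a X (yy (2 * L)) κ M
  set h := AdK π ρ u a X (yy (2 * L)) s t κ M with hh
  have hE : ∀ k : ℕ, Eg π ρ s u a h P (yy (2 * k)) =
      -(Complex.I • AdK π ρ u a X (yy (2 * L)) s (Zs k t) κ M) := by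
    intro k
    induction k with
    | zero =>
      have e1 : Zs 0 t = (0 : ℝ) • t := by
        unfold Zs
        simp
      rw [e1, ad2]
      have e2 : yy (2 * 0) = 1 := rfl
      rw [e2]
      unfold Eg
      rw [Dg_one]
      simp
    | succ k ih =>
      have e0 : 2 * (k + 1) = 2 * k + 2 := by ring
      rw [e0, Eg_odd, Eg_even, ih]
      have e1 : Zs (k + 1) t = Zs k t + (((-1 : ℝ) ^ (2 * k + 2)) • act (yy (2 * k + 1)) t +
          ((-1 : ℝ) ^ (2 * k + 3)) • act (yy (2 * k + 2)) t) := by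
        unfold Zs
        rw [e0, Finset.sum_Icc_succ_top (by omega), Finset.sum_Icc_succ_top (by omega), add_assoc]
      have p1 : (-1 : ℝ) ^ (2 * k + 2) = 1 := by
        rw [pow_add, pow_mul]; norm_num
      have p2 : (-1 : ℝ) ^ (2 * k + 3) = -1 := by
        rw [pow_add, pow_mul]; norm_num
      rw [e1, p1, p2, ad1, ad1, ad2, ad2, ← ad3, ← ad3]
      simp only [Complex.ofReal_one, Complex.ofReal_neg, one_smul, neg_smul, smul_add, smul_neg,
        smul_sub]
      abel
  have hd : der (vl π ρ s) (dl π h P) (pw u a X (yy (2 * L)) 1) =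
      Dg π ρ s u a h P (yy (2 * L)) * (ρ (Uc X 1) * (GG π ρ u a (yy (2 * L))⁻¹ : A)) +
      (GG π ρ u a (yy (2 * L)) : A) * (ρ (Uc X 1) * Dg π ρ s u a h P (yy (2 * L))⁻¹) := by
    unfold pw
    rw [der_append, ev_cons, ev_gw, ev_gw, der_cons]
    simp only [vl_r, dl, zero_mul, zero_add]
    rfl
  rw [hd, Dg_inv, Dg_eq, hE L]
  unfold PU
  simp only [mul_neg, neg_mul, neg_neg, mul_smul_comm, smul_mul_assoc, smul_sub, mul_assoc]
  abel

end

end Pool.Agent.H923R2.FP.T_FORM
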